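import Pool.Agent.Helper11.S3.Sheet

/-!
S3, row MER: `m` half great circles and chords.
-/

open MeasureTheory Metric Set Filter Topology Real
open scoped ENNReal NNReal

namespace H11ST
namespace S3

variable {x : E 3} {ρ : ℝ}

theorem mer_union {D D' : Set (E 3)} {c c' : ℝ} (h : Con x ρ D c) (h' : Con x ρ D' c') {y : E 3}
    (hy : y ∈ D) (hy' : y ∈ D') : Con x ρ (D ∪ D') (c + c') where
  closed := h.closed.union h'.closed
  conn := IsPreconnected.union y hy hy' h.conn h'.conn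
  sub := union_subset h.sub h'.sub
  nonneg := add_nonneg h.nonneg h'.nonneg
  len := by
    rw [ENNReal.ofReal_add h.nonneg h'.nonneg]
    exact (measure_union_le _ _).trans (add_le_add h.len h'.len)

theorem mer_segc {q p : E 3} (hq : q ∈ closedBall x ρ) (hp : p ∈ closedBall x ρ) :
    Con x ρ (segment ℝ q p) (dist q p) where
  closed := by
    rw [segment_eq_image]
    exact (isCompact_Icc.image (by fun_prop)).isClosed
  conn := (convex_segment q p).isPreconnected
  sub := (convex_closedBall x ρ).segment_subset hq hp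
  nonneg := dist_nonneg
  len := by rw [hausdorffMeasure_segment, edist_dist]

theorem mer_segs {D : Set (E 3)} {c : ℝ} (h : Con x ρ D c) (q : E 3 → E 3) (P : Finset (E 3))
    (hq : ∀ p ∈ P, q p ∈ D) (hP : ∀ p ∈ P, p ∈ closedBall x ρ) :
    ∃ D', D ⊆ D' ∧ Con x ρ D' (c + ∑ p ∈ P, dist (q p) p) ∧ ∀ p ∈ P, p ∈ D' := by
  classical
  induction P using Finset.induction_on with
  | empty => exact ⟨D, subset_rfl, by simpa using h, by simp⟩
  | insert a P ha ih =>
    obtain ⟨D', h1, h2, h3⟩ := ih (fun p hp => hq p (Finset.mem_insert_of_mem hp))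
      (fun p hp => hP p (Finset.mem_insert_of_mem hp))
    have hqa : q a ∈ D' := h1 (hq a (Finset.mem_insert_self _ _))
    have h4 := mer_union h2 (mer_segc (h2.sub hqa) (hP a (Finset.mem_insert_self _ _))) hqa
      (left_mem_segment ℝ _ _)
    refine ⟨D' ∪ segment ℝ (q a) a, h1.trans subset_union_left, ?_, ?_⟩
    · rw [Finset.sum_insert ha]
      have e : c + (dist (q a) a + ∑ p ∈ P, dist (q p) p) =
          c + ∑ p ∈ P, dist (q p) p + dist (q a) a := by ring
      rw [e]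
      exact h4
    · intro p hp
      rcases Finset.mem_insert.1 hp with rfl | hp
      · exact Or.inr (right_mem_segment ℝ _ _)
      · exact Or.inl (h3 p hp)

/-- the half great circle -/
noncomputable def merarc (x : E 3) (ρ : ℝ) (u g : E 3) : Set (E 3) :=
  (fun s : ℝ => x + ρ • (sin s • u + cos s • g)) '' Icc 0 π

theorem mer_pole (u g : E 3) : x + ρ • g ∈ merarc x ρ u g := by
  refine ⟨0, ⟨le_rfl, pi_pos.le⟩, ?_⟩
  simp

theorem mer_arcs (hA : S3_ARC) (hρ : 0 < ρ) {g : E 3} (hg : ‖g‖ = 1) (u : ℕ → E 3)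
    (hu : ∀ i, ‖u i‖ = 1) (hug : ∀ i, inner ℝ (u i) g = (0 : ℝ)) (k : ℕ) :
    ∃ D, Con x ρ D (π * ρ * (k + 1)) ∧ (∀ i, i ≤ k → merarc x ρ (u i) g ⊆ D) ∧ x + ρ • g ∈ D := by
  induction k with
  | zero =>
    refine ⟨merarc x ρ (u 0) g, ?_, ?_, mer_pole _ _⟩
    · have h := hA x ρ hρ (u 0) g (hu 0) hg (hug 0)
      simpa [merarc] using h
    · intro i hi
      rw [Nat.le_zero.1 hi]
  | succ k ih =>
    obtain ⟨D, h1, h2, h3⟩ := ih
    have h4 : Con x ρ (merarc x ρ (u (k + 1)) g) (π * ρ) :=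
      hA x ρ hρ (u (k + 1)) g (hu _) hg (hug _)
    have h5 := mer_union h1 h4 h3 (mer_pole _ _)
    refine ⟨D ∪ merarc x ρ (u (k + 1)) g, ?_, ?_, Or.inl h3⟩
    · have e : π * ρ * (((k + 1 : ℕ) : ℝ) + 1) = π * ρ * (k + 1) + π * ρ := by
        push_cast
        ring
      rw [e]
      exact h5
    · intro i hi
      rcases Nat.lt_or_ge k i with h | h
      · have : i = k + 1 := by omega
        rw [this]
        exact subset_union_right
      · exact (h2 i h).trans subset_union_left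

/-- the directions of the half great circles -/
noncomputable def meru (e f : E 3) (m : ℕ) (j : Fin 2) (i : ℕ) : E 3 :=
  cos ((2 * i + (j : ℕ)) * (π / m)) • e + sin ((2 * i + (j : ℕ)) * (π / m)) • f

theorem meru_norm {e f : E 3} (he : ‖e‖ = 1) (hf : ‖f‖ = 1) (hef : inner ℝ e f = (0 : ℝ)) (m : ℕ)
    (j : Fin 2) (i : ℕ) : ‖meru e f m j i‖ = 1 := by
  have h : ‖meru e f m j i‖ ^ 2 = 1 := by
    unfold meru
    rw [norm_add_sq_real, norm_smul, norm_smul, he, hf, inner_smul_left, inner_smul_right, hef]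
    simp only [Real.norm_eq_abs, mul_one, mul_zero, add_zero, sq_abs]
    exact cos_sq_add_sin_sq _
  have h0 := norm_nonneg (meru e f m j i)
  nlinarith

theorem meru_inner {e f g : E 3} (heg : inner ℝ e g = (0 : ℝ)) (hfg : inner ℝ f g = (0 : ℝ)) (m : ℕ)
    (j : Fin 2) (i : ℕ) : inner ℝ (meru e f m j i) g = (0 : ℝ) := by
  unfold meru
  rw [inner_add_left, inner_smul_left, inner_smul_left, heg, hfg]
  simp

/-- (MER) -/
theorem mer : S3_MER := by
  intro hA hL x ρ hρ e f g he hf hg hef heg hfg m hm P hP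
  have hm0 : (0 : ℝ) < m := by exact_mod_cast hm
  have hLp : ∀ p : E 3, ∃ (i : Fin 2 → ℕ) (s : ℝ), p ∈ P → (∀ j, i j < m) ∧ 0 ≤ s ∧ s ≤ π ∧
      ∑ j : Fin 2, dist p (x + ρ • (sin s • meru e f m j (i j) + cos s • g)) ≤
        √(ρ ^ 2 - inner ℝ (p - x) g ^ 2) * (π / m) := by
    intro p
    by_cases hp : p ∈ P
    · obtain ⟨i, s, h⟩ := hL x ρ hρ e f g he hf hg hef heg hfg m hm p (hP p hp)
      exact ⟨i, s, fun _ => h⟩
    · exact ⟨fun _ => 0, 0, fun h => absurd h hp⟩
  choose i s his using hLp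
  let q : Fin 2 → E 3 → E 3 := fun j p =>
    x + ρ • (sin (s p) • meru e f m j (i p j) + cos (s p) • g)
  have key : ∀ j : Fin 2, ∃ D', Con x ρ D' (π * ρ * m + ∑ p ∈ P, dist (q j p) p) ∧
      ∀ p ∈ P, p ∈ D' := by
    intro j
    obtain ⟨D, h1, h2, -⟩ := mer_arcs (x := x) hA hρ hg (meru e f m j)
      (meru_norm he hf hef m j) (meru_inner heg hfg m j) (m - 1)
    have e1 : (((m - 1 : ℕ) : ℝ) + 1) = m := by
      have : m - 1 + 1 = m := by omega
      exact_mod_cast this
    rw [e1] at h1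
    obtain ⟨D', -, h4, h5⟩ := mer_segs h1 (q j) P (fun p hp => by
      have h6 := his p hp
      refine h2 (i p j) (by have := h6.1 j; omega) ?_
      exact ⟨s p, ⟨h6.2.1, h6.2.2.1⟩, rfl⟩) (fun p hp => sphere_subset_closedBall (hP p hp))
    exact ⟨D', h4, h5⟩
  have hsum : ∑ p ∈ P, dist (q 0 p) p + ∑ p ∈ P, dist (q 1 p) p ≤
      (π / m) * ∑ p ∈ P, √(ρ ^ 2 - inner ℝ (p - x) g ^ 2) := by
    rw [← Finset.sum_add_distrib, Finset.mul_sum]
    refine Finset.sum_le_sum fun p hp => ?_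
    have h6 := (his p hp).2.2.2
    rw [Fin.sum_univ_two] at h6
    have e0 : dist (q 0 p) p = dist p (x + ρ • (sin (s p) • meru e f m 0 (i p 0) + cos (s p) • g)) :=
      dist_comm _ _
    have e1 : dist (q 1 p) p = dist p (x + ρ • (sin (s p) • meru e f m 1 (i p 1) + cos (s p) • g)) :=
      dist_comm _ _
    rw [e0, e1]
    linarith
  have hhalf : π / (2 * m) = (π / m) / 2 := by
    field_simp
  rcases le_total (∑ p ∈ P, dist (q 0 p) p) (∑ p ∈ P, dist (q 1 p) p) with h | h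
  · obtain ⟨D, h1, h2⟩ := key 0
    refine ⟨D, _, h1, h2, ?_⟩
    rw [hhalf]
    linarith
  · obtain ⟨D, h1, h2⟩ := key 1
    refine ⟨D, _, h1, h2, ?_⟩
    rw [hhalf]
    linarith

end S3
end H11ST
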